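import Pool.Agent.V11146.MK.Rough

/-!
# The residue patterns modulo 4 of the rough numbers

`S_z` is the set of the `n` without a prime factor `≤ z` (so it contains all the primes `p > z`), and
`A_z = {n ∈ S_z : n ≡ 1 (mod 4)}`. For every `k` and `ε > 0` there are `K` and `z₀` such that for all `z ≥ z₀` and
ALL intervals `(Z, Z + Y]` with `Y ≥ z ^ K`, `Z ≥ 1`: for every `T ⊆ {0, …, k}` the share, among the elements `g`
of `S_z` in the interval, of those for which the `i`-th successor of `g` in `S_z` is in `A_z` exactly for the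
`i ∈ T` (`i ≤ k`), is `2 ^ (-k-1)` up to `ε`.
-/

set_option autoImplicit false

open Finset

namespace Pool.Agent.Results.MP_998a8b_nt.RoughUniversal

/-- `n` has no prime factor `≤ z`. -/
def Rough (z n : ℕ) : Prop := ∀ p : ℕ, p.Prime → p ≤ z → ¬ p ∣ n

/-- `n 0 < n 1 < … < n k` are consecutive elements of `S`. -/
def Consecutive (S : ℕ → Prop) (k : ℕ) (n : ℕ → ℕ) : Prop :=
  (∀ i ≤ k, S (n i)) ∧ ∀ i < k, n i < n (i + 1) ∧ ∀ m, n i < m → m < n (i + 1) → ¬ S m

open Classical in
/-- The number of the elements of `S_z` in `(Z, Z + Y]`. -/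
noncomputable def total (z Z Y : ℕ) : ℕ := ((Ioc Z (Z + Y)).filter (Rough z)).card

open Classical in
/-- The number of the `g ∈ S_z` in `(Z, Z + Y]` such that, for `i ≤ k`, the `i`-th successor of `g` in `S_z` is
`1` modulo 4 exactly when `i ∈ T`. -/
noncomputable def count (z k : ℕ) (T : Finset ℕ) (Z Y : ℕ) : ℕ :=
  ((Ioc Z (Z + Y)).filter (fun g => ∃ n : ℕ → ℕ, n 0 = g ∧ Consecutive (Rough z) k n ∧
    ∀ i ≤ k, (n i % 4 = 1 ↔ i ∈ T))).card

lemma pattern : Pool.Agent.Y879.GL.Pat 2 2 1 ![0] where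
  hM := by norm_num
  hc := by norm_num
  hk := by norm_num
  hkP := by norm_num
  hpr := by
    intro p hp
    have h2 := hp.two_le
    constructor
    · intro h
      exact Nat.le_of_dvd (by norm_num) h
    · intro h
      have : p = 2 := by omega
      rw [this]
  cop := by
    intro i
    simp
  inj := by
    intro i j _
    exact Subsingleton.elim i j
  dif := by
    intro i j hij
    exact absurd (Subsingleton.elim i j) hij

lemma rough_iff (y n : ℕ) (hy : 2 ≤ y) : Rough y n ↔ Pool.Agent.Y879.GL.Rg 2 1 ![0] y n := by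
  unfold Rough Pool.Agent.Y879.GL.Rg
  constructor
  · intro h
    refine ⟨?_, ?_⟩
    · have := h 2 Nat.prime_two hy
      omega
    intro p hp hpy i
    have := h p hp hpy
    fin_cases i
    simpa using this
  · rintro ⟨_, h⟩ p hp hpy
    simpa using h p hp hpy 0

open Classical Pool.Agent.V11146.MK in
lemma main (k : ℕ) (ε : ℝ) (hε : 0 < ε) : ∃ K z₀ : ℕ, ∀ z : ℕ, z₀ ≤ z → ∀ Z Y : ℕ, 1 ≤ Z → z ^ K ≤ Y →
    0 < total z Z Y ∧ ∀ T : Finset ℕ,
      |(count z k T Z Y : ℝ) - total z Z Y / 2 ^ (k + 1)| ≤ ε * total z Z Y := by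
  have H := pattern
  have hcard : (cls (Pool.Agent.W123.RU.Poly.Q (Pool.Agent.Y879.GL.sy 2 1 ![0])) 2).card = 2 := by
    have h1 := card_cls (Pool.Agent.W123.RU.Poly.Q (Pool.Agent.Y879.GL.sy 2 1 ![0])) 2
    have h2 := Pool.Agent.Y879.GL.nu_small H 2 Nat.prime_two (by norm_num)
    omega
  obtain ⟨K, y0, h⟩ := rel_pat (Pool.Agent.Y879.GL.sy 2 1 ![0])
    (Pool.Agent.Y879.GL.sy_sys H) (Pool.Agent.Y879.GL.sy_noTr H (by intro i; fin_cases i; simp)) 2 k
    Nat.prime_two 2 1 (by norm_num) Rough 2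
    (fun y hy n => (rough_iff y n hy).trans (Pool.Agent.Y879.GL.Rg_iff H y n)) (fun n => n % 4)
    (fun a => if a = 1 then 0 else 1) {1, 3}
    (by
      intro b hb m
      simp only [mem_insert, mem_singleton] at hb
      rcases hb with rfl | rfl
      · simp only [if_true]
        omega
      · simp only [OfNat.ofNat_ne_one, if_false]
        omega)
    (by
      intro b hb
      rw [mem_cls, Pool.Agent.Y879.GL.Q_iff]
      simp only [mem_insert, mem_singleton] at hb
      rcases hb with rfl | rfl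
      · refine ⟨by norm_num, ?_⟩
        rintro ⟨i, hi⟩
        fin_cases i
        norm_num at hi
      · refine ⟨by norm_num, ?_⟩
        rintro ⟨i, hi⟩
        fin_cases i
        norm_num at hi) ε hε
  refine ⟨K, max y0 2, ?_⟩
  intro z hz Z Y hZ hY
  have hz2 : 2 ≤ z := (le_max_right _ _).trans hz
  obtain ⟨h1, h2⟩ := h z ((le_max_left _ _).trans hz) Z Y hY (Or.inl hZ)
  refine ⟨h1, ?_⟩
  intro T
  have h3 := h2 (fun i => if i ∈ T then 1 else 3) (by
    intro i _
    simp only [mem_insert, mem_singleton]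
    split_ifs <;> simp)
  rw [hcard] at h3
  have h8 : count z k T Z Y = ((Ioc Z (Z + Y)).filter (fun g => Runs (Rough z) (fun n => n % 4) k
      (fun i => if i ∈ T then 1 else 3) g)).card := by
    unfold count
    congr 1
    apply Finset.filter_congr
    intro g _
    unfold Runs
    apply exists_congr
    intro n
    apply and_congr_right
    intro _
    apply and_congr_right
    intro hn
    apply forall_congr'
    intro i
    apply forall_congr'
    intro hi
    have h5 := hn.1 i hi 2 Nat.prime_two hz2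
    change (n i % 4 = 1 ↔ i ∈ T) ↔ n i % 4 = if i ∈ T then 1 else 3
    by_cases h6 : i ∈ T
    · simp only [h6, iff_true, if_true]
    · simp only [h6, iff_false, if_false]
      omega
  rw [← h8] at h3
  exact h3

/-- **The residue patterns modulo 4 of the rough numbers.** -/
theorem result :
    (∀ z p : ℕ, p.Prime → z < p → Rough z p) ∧
    ∀ (k : ℕ) (ε : ℝ), 0 < ε → ∃ K z₀ : ℕ, ∀ z : ℕ, z₀ ≤ z → ∀ Z Y : ℕ, 1 ≤ Z → z ^ K ≤ Y →
      0 < total z Z Y ∧ ∀ T : Finset ℕ,
        0 < count z k T Z Y ∧ |(count z k T Z Y : ℝ) / total z Z Y - 1 / 2 ^ (k + 1)| ≤ ε := by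
  refine ⟨?_, ?_⟩
  · intro z p hp hz r hr hrz h
    have := (Nat.prime_dvd_prime_iff_eq hr hp).1 h
    omega
  intro k ε hε
  obtain ⟨e, he⟩ : ∃ e : ℝ, e = min ε (1 / 2 ^ (k + 2)) := ⟨_, rfl⟩
  have he0 : 0 < e := by
    rw [he]
    positivity
  have he1 : e ≤ ε := by rw [he]; exact min_le_left _ _
  have he2 : e ≤ 1 / 2 ^ (k + 2) := by rw [he]; exact min_le_right _ _
  obtain ⟨K, z₀, h⟩ := main k e he0
  refine ⟨K, z₀, ?_⟩
  intro z hz Z Y hZ hY
  obtain ⟨h1, h2⟩ := h z hz Z Y hZ hY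
  refine ⟨h1, ?_⟩
  intro T
  have h3 := h2 T
  have h4 : (0 : ℝ) < total z Z Y := by exact_mod_cast h1
  have h6 : (count z k T Z Y : ℝ) / total z Z Y - 1 / 2 ^ (k + 1) =
      ((count z k T Z Y : ℝ) - (total z Z Y : ℝ) / 2 ^ (k + 1)) / total z Z Y := by
    field_simp
  have h7 : |(count z k T Z Y : ℝ) / total z Z Y - 1 / 2 ^ (k + 1)| ≤ e := by
    rw [h6, abs_div, abs_of_pos h4, div_le_iff₀ h4]
    exact h3
  refine ⟨?_, h7.trans he1⟩
  have h8 : (1 : ℝ) / 2 ^ (k + 2) < 1 / 2 ^ (k + 1) := by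
    apply one_div_lt_one_div_of_lt (by positivity)
    exact pow_lt_pow_right₀ (by norm_num) (by omega)
  have h9 : 0 < (count z k T Z Y : ℝ) / total z Z Y := by
    have := (abs_le.1 h7).1
    linarith
  rw [div_pos_iff_of_pos_right h4] at h9
  exact_mod_cast h9

end Pool.Agent.Results.MP_998a8b_nt.RoughUniversal
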